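import Mathlib

/-!
Averages over finite groups: a subfield `F0` over which the field is spanned by elements whose
averages are in `F0` is the field of invariants.
-/

set_option autoImplicit false

namespace Pool.Agent.Helper49.NP

variable {L : Type*} [Field L]

theorem avg {H : Type*} [Fintype H] (φ : H → L →+* L) (F0 : Subfield L)
    (hF0 : ∀ h, ∀ x ∈ F0, φ h x = x) (T : Set L)
    (hspan : ∀ y : L, y ∈ Submodule.span F0 T)
    (hT : ∀ t ∈ T, ∑ h, φ h t ∈ F0) (hcard : ((Fintype.card H : ℕ) : L) ≠ 0)
    (y : L) (hy : ∀ h, φ h y = y) : y ∈ F0 := by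
  have key : ∀ z : L, ∑ h, φ h z ∈ F0 := by
    intro z
    refine Submodule.span_induction (p := fun z _ => ∑ h, φ h z ∈ F0) hT ?_ ?_ ?_ (hspan z)
    · simp
    · intro a b _ _ ha hb
      simp only [map_add, Finset.sum_add_distrib]
      exact F0.add_mem ha hb
    · intro c a _ ha
      have : ∑ h, φ h (c • a) = (c : L) * ∑ h, φ h a := by
        rw [Finset.mul_sum]
        refine Finset.sum_congr rfl fun h _ => ?_
        rw [Subfield.smul_def, smul_eq_mul, map_mul, hF0 h c c.2]
      rw [this]
      exact F0.mul_mem c.2 ha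
  have h1 := key y
  simp only [hy, Finset.sum_const, Finset.card_univ, nsmul_eq_mul] at h1
  have h2 : y = ((Fintype.card H : ℕ) : L)⁻¹ * (((Fintype.card H : ℕ) : L) * y) := by
    rw [← mul_assoc, inv_mul_cancel₀ hcard, one_mul]
  rw [h2]
  exact F0.mul_mem (F0.inv_mem (natCast_mem F0 _)) h1

/-- A field generated by a subfield and a submonoid of algebraic elements is the span of the
submonoid. -/
theorem span_top (F0 : Subfield L) (T : Submonoid L) (halg : ∀ t ∈ T, IsAlgebraic F0 t)
    (hgen : ∀ K : Subfield L, F0 ≤ K → (T : Set L) ⊆ K → K = ⊤) (y : L) :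
    y ∈ Submodule.span F0 (T : Set L) := by
  have h1 : IntermediateField.adjoin F0 (T : Set L) = ⊤ := by
    rw [← IntermediateField.toSubfield_injective.eq_iff]
    rw [IntermediateField.top_toSubfield]
    apply hgen
    · intro x hx
      exact (IntermediateField.adjoin F0 (T : Set L)).algebraMap_mem ⟨x, hx⟩
    · exact IntermediateField.subset_adjoin F0 _
  have h2 : y ∈ Algebra.adjoin F0 (T : Set L) := by
    rw [← IntermediateField.adjoin_toSubalgebra_of_isAlgebraic halg, h1]
    trivial
  have h3 : y ∈ Subalgebra.toSubmodule (Algebra.adjoin F0 (T : Set L)) := h2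
  rw [Algebra.adjoin_eq_span, Submonoid.closure_eq] at h3
  exact h3

end Pool.Agent.Helper49.NP
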