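import Pool.Agent.Helper49.NP.Fld

/-!
The eigenvectors of a finite abelian permutation group in the space spanned by the variables, and
the field of invariants over a field with enough roots of unity.
-/

set_option autoImplicit false

namespace Pool.Agent.Helper49.NP

open MvPolynomial

section
variable {M G S : Type} [Field M] [CommGroup G] [Fintype G] [MulAction G S]

/-- The eigenvector with the character `χ` in the span of the orbit of `x s`. -/
noncomputable def Y (χ : G →* Mˣ) (s : S) : RatFun M S :=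
  ∑ g : G, algebraMap M (RatFun M S) ((χ g)⁻¹ : Mˣ) * var M (g • s)

theorem permute_Y (h : G) (χ : G →* Mˣ) (s : S) :
    permute M h (Y χ s) = algebraMap M (RatFun M S) (χ h : Mˣ) * Y χ s := by
  rw [Y, map_sum, Finset.mul_sum]
  refine Fintype.sum_equiv (Equiv.mulLeft h) _ _ fun g => ?_
  simp only [Equiv.coe_mulLeft]
  rw [map_mul, permute_const, permute_var, ← mul_assoc, ← map_mul, smul_smul, ← Units.val_mul]
  congr 3
  rw [map_mul, mul_inv, mul_inv_cancel_left]

theorem Y_smul (h : G) (χ : G →* Mˣ) (s : S) :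
    Y χ (h • s) = algebraMap M (RatFun M S) (χ h : Mˣ) * Y χ s := by
  rw [Y, Y, Finset.mul_sum]
  refine Fintype.sum_equiv (Equiv.mulRight h) _ _ fun g => ?_
  simp only [Equiv.coe_mulRight]
  rw [← mul_assoc, ← map_mul, smul_smul, ← Units.val_mul]
  congr 3
  rw [map_mul, mul_inv, mul_comm (χ g)⁻¹, mul_inv_cancel_left]

theorem Y_eq_zero {χ : G →* Mˣ} {s : S} {h : G} (hs : h • s = s) (hχ : χ h ≠ 1) : Y χ s = 0 := by
  have h1 := Y_smul h χ s
  rw [hs] at h1
  have h2 : (algebraMap M (RatFun M S) (χ h : Mˣ) - 1) * Y χ s = 0 := by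
    rw [sub_mul, one_mul, ← h1, sub_self]
  rcases mul_eq_zero.1 h2 with h3 | h3
  · exfalso
    apply hχ
    rw [sub_eq_zero, ← map_one (algebraMap M (RatFun M S))] at h3
    exact Units.ext (FaithfulSMul.algebraMap_injective M (RatFun M S) h3)
  · exact h3

theorem gal_Y {E : Type} [Field E] [Algebra E M] (σ : M ≃ₐ[E] M) (χ : G →* Mˣ) (s : S) :
    gal S σ (Y χ s) = Y ((Units.map (σ : M →* M)).comp χ) s := by
  rw [Y, Y, map_sum]
  refine Finset.sum_congr rfl fun g _ => ?_
  rw [map_mul, gal_const, gal_var]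
  congr 2

/-- The second orthogonality relation. -/
theorem sum_char [Fintype (G →* Mˣ)] [HasEnoughRootsOfUnity M (Monoid.exponent G)] {a : G}
    (ha : a ≠ 1) : ∑ χ : G →* Mˣ, (((χ a)⁻¹ : Mˣ) : M) = 0 := by
  obtain ⟨φ, hφ⟩ := CommGroup.exists_apply_ne_one_of_hasEnoughRootsOfUnity G M ha
  let f : (G →* Mˣ) →* M :=
    { toFun := fun χ => (((χ a)⁻¹ : Mˣ) : M)
      map_one' := by simp
      map_mul' := fun χ ψ => by simp [mul_comm] }
  refine sum_hom_units_eq_zero f fun h => hφ ?_
  have h1 := DFunLike.congr_fun h φ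
  simp only [f, MonoidHom.coe_mk, OneHom.coe_mk, MonoidHom.one_apply, Units.val_eq_one] at h1
  rwa [inv_eq_one] at h1

theorem sum_Y [Fintype (G →* Mˣ)] [HasEnoughRootsOfUnity M (Monoid.exponent G)] (s : S) :
    ∑ χ : G →* Mˣ, Y χ s = (Fintype.card (G →* Mˣ) : RatFun M S) * var M s := by
  classical
  simp only [Y]
  rw [Finset.sum_comm, Finset.sum_eq_single (1 : G)]
  · simp
  · intro a _ ha
    rw [← Finset.sum_mul, ← map_sum, sum_char ha, map_zero, zero_mul]
  · simp

/-- The first orthogonality relation. -/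
theorem sum_grp {χ ψ : G →* Mˣ} (h : χ ≠ ψ) :
    ∑ g : G, (((χ g)⁻¹ : Mˣ) : M) * (ψ g : Mˣ) = 0 := by
  let f : G →* M :=
    { toFun := fun g => (((χ g)⁻¹ : Mˣ) : M) * (ψ g : Mˣ)
      map_one' := by simp
      map_mul' := fun a b => by simp; ring }
  refine sum_hom_units_eq_zero f fun hf => h ?_
  ext g
  have h1 := DFunLike.congr_fun hf g
  simp only [f, MonoidHom.coe_mk, OneHom.coe_mk, MonoidHom.one_apply] at h1
  rw [← Units.val_mul, Units.val_eq_one, inv_mul_eq_one] at h1
  rw [h1]

end

section
variable {M G S : Type} [Field M] [CommGroup G] [MulAction G S]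

variable (G S) in
/-- The orbits. -/
abbrev Orb : Type := MulAction.orbitRel.Quotient G S

/-- A representative of the orbit. -/
noncomputable def rep (O : Orb G S) : S := Quotient.out O

/-- The orbit of `s`. -/
def orb (G : Type) {S : Type} [CommGroup G] [MulAction G S] (s : S) : Orb G S :=
  Quotient.mk (MulAction.orbitRel G S) s

theorem exists_smul_rep (s : S) : ∃ g : G, g • rep (orb G s) = s := by
  have h1 : (MulAction.orbitRel G S) (rep (orb G s)) s := Quotient.exact (Quotient.out_eq _)
  rw [MulAction.orbitRel_apply, MulAction.mem_orbit_symm] at h1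
  exact h1

/-- An element which maps the representative of the orbit to `s`. -/
noncomputable def tr (G : Type) {S : Type} [CommGroup G] [MulAction G S] (s : S) : G :=
  (exists_smul_rep (G := G) s).choose

theorem tr_smul (s : S) : tr G s • rep (orb G s) = s := (exists_smul_rep (G := G) s).choose_spec

theorem orb_smul (g : G) (s : S) : orb G (g • s) = orb G s :=
  Quotient.sound (MulAction.mem_orbit s g)

theorem orb_rep (O : Orb G S) : orb G (rep O) = O := Quotient.out_eq O

variable (M G S) in
/-- The index set of the eigenvectors: pairs of an orbit and a character which is trivial on the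
stabilizer. -/
abbrev Idx : Type :=
  {ω : Orb G S × (G →* Mˣ) // ∀ g : G, g • rep ω.1 = rep ω.1 → ω.2 g = 1}

theorem char_eq (ω : Idx M G S) {g h : G} (hgh : g • rep ω.1.1 = h • rep ω.1.1) :
    ω.1.2 g = ω.1.2 h := by
  have h1 := ω.2 (h⁻¹ * g) (by rw [mul_smul, hgh, inv_smul_smul])
  rw [map_mul, map_inv, inv_mul_eq_one] at h1
  exact h1.symm

end

variable {M G S : Type} [Field M] [CommGroup G] [Fintype G] [MulAction G S]

/-- The eigenvectors. -/
noncomputable def yy (ω : Idx M G S) : RatFun M S := Y ω.1.2 (rep ω.1.1)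

/-- The eigenvectors are algebraically independent. -/
theorem algInd_yy [CharZero M] [Fintype (Idx M G S)] : AlgebraicIndependent M (yy : Idx M G S → RatFun M S) := by
  classical
  -- the polynomials `yy`
  let Yp : Idx M G S → MvPolynomial S M := fun ω =>
    ∑ g : G, C (((ω.1.2 g)⁻¹ : Mˣ) : M) * X (g • rep ω.1.1)
  have hYp : ∀ ω, algebraMap (MvPolynomial S M) (RatFun M S) (Yp ω) = yy ω := by
    intro ω
    rw [map_sum, yy, Y]
    refine Finset.sum_congr rfl fun g _ => ?_
    rw [map_mul, IsScalarTower.algebraMap_apply M (MvPolynomial S M) (RatFun M S)]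
    rfl
  have hI : Function.Injective (aeval Yp : MvPolynomial (Idx M G S) M →ₐ[M] MvPolynomial S M) := by
    let c : M := ((Fintype.card G : ℕ) : M)⁻¹
    have hc : c * ((Fintype.card G : ℕ) : M) = 1 :=
      inv_mul_cancel₀ (Nat.cast_ne_zero.2 Fintype.card_ne_zero)
    let v : S → MvPolynomial (Idx M G S) M := fun s =>
      C c * ∑ ω' : Idx M G S, if ω'.1.1 = orb G s then C ((ω'.1.2 (tr G s) : Mˣ) : M) * X ω' else 0
    have hv : ∀ (ω : Idx M G S) (g : G), v (g • rep ω.1.1) =
        ∑ ω' : Idx M G S, if ω'.1.1 = ω.1.1 then C (c * ((ω'.1.2 g : Mˣ) : M)) * X ω' else 0 := by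
      intro ω g
      have h1 : orb G (g • rep ω.1.1) = ω.1.1 := by rw [orb_smul, orb_rep]
      simp only [v, Finset.mul_sum]
      refine Finset.sum_congr rfl fun ω' _ => ?_
      rw [h1]
      by_cases h2 : ω'.1.1 = ω.1.1
      · rw [if_pos h2, if_pos h2, map_mul, mul_assoc]
        congr 4
        apply char_eq
        have h3 := tr_smul (G := G) (g • rep ω.1.1)
        rw [h1] at h3
        rw [h2]
        exact h3
      · rw [if_neg h2, if_neg h2, mul_zero]
    have key : ∀ ω, aeval v (Yp ω) = X ω := by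
      intro ω
      have h6 : aeval v (Yp ω) = ∑ g : G, (aeval v) (C (((ω.1.2 g)⁻¹ : Mˣ) : M)) *
          ∑ ω' : Idx M G S, (if ω'.1.1 = ω.1.1 then C (c * ((ω'.1.2 g : Mˣ) : M)) * X ω' else 0 :
            MvPolynomial (Idx M G S) M) := by
        rw [map_sum]
        refine Finset.sum_congr rfl fun g _ => ?_
        rw [map_mul, aeval_X, hv]
      rw [h6]
      rw [show (∑ g : G, (aeval v) (C (((ω.1.2 g)⁻¹ : Mˣ) : M)) *
          ∑ ω' : Idx M G S, (if ω'.1.1 = ω.1.1 then C (c * ((ω'.1.2 g : Mˣ) : M)) * X ω' else 0 :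
            MvPolynomial (Idx M G S) M)) = ∑ ω' : Idx M G S, if ω'.1.1 = ω.1.1 then
            C (c * ∑ g : G, ((((ω.1.2 g)⁻¹ : Mˣ) : M) * (ω'.1.2 g : Mˣ))) * X ω' else 0 from ?_]
      · rw [Finset.sum_eq_single ω]
        · rw [if_pos rfl]
          have h5 : ∑ g : G, ((((ω.1.2 g)⁻¹ : Mˣ) : M) * (ω.1.2 g : Mˣ)) = (Fintype.card G : ℕ) := by
            rw [Finset.sum_congr rfl (g := fun _ => (1 : M)) fun g _ => by
              rw [← Units.val_mul, inv_mul_cancel, Units.val_one]]
            simp
          rw [h5, hc, map_one, one_mul]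
        · intro ω' _ hne
          by_cases h2 : ω'.1.1 = ω.1.1
          · rw [if_pos h2, sum_grp, mul_zero, map_zero, zero_mul]
            intro h3
            exact hne (Subtype.ext (Prod.ext h2 h3.symm))
          · rw [if_neg h2]
        · simp
      · simp only [Finset.mul_sum]
        rw [Finset.sum_comm]
        refine Finset.sum_congr rfl fun ω' _ => ?_
        by_cases h2 : ω'.1.1 = ω.1.1
        · simp only [if_pos h2]
          rw [map_sum, Finset.sum_mul]
          refine Finset.sum_congr rfl fun g _ => ?_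
          rw [algHom_C, MvPolynomial.algebraMap_eq, ← mul_assoc, ← map_mul]
          congr 2
          ring
        · simp only [if_neg h2, mul_zero, Finset.sum_const_zero]
    have h2 : (aeval v).comp (aeval Yp) = AlgHom.id M (MvPolynomial (Idx M G S) M) := by
      apply MvPolynomial.algHom_ext
      intro ω
      rw [AlgHom.comp_apply, aeval_X, key]
      rfl
    have h3 : Function.LeftInverse (aeval v) (aeval Yp) := fun f => DFunLike.congr_fun h2 f
    exact h3.injective
  have h1 : (aeval (yy : Idx M G S → RatFun M S) : MvPolynomial (Idx M G S) M →ₐ[M] RatFun M S)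
      = (IsScalarTower.toAlgHom M (MvPolynomial S M) (RatFun M S)).comp (aeval Yp) := by
    ext ω
    simp [hYp]
  rw [AlgebraicIndependent, h1]
  exact (IsFractionRing.injective (MvPolynomial S M) (RatFun M S)).comp hI

end Pool.Agent.Helper49.NP
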