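import Mathlib

/-!
Laurent monomials in algebraically independent elements of a field are linearly independent.
-/

set_option autoImplicit false

namespace Pool.Agent.Helper49.NP

variable {M L Ω : Type*} [Field M] [Field L] [Algebra M L] [Fintype Ω]

/-- The Laurent monomial with the exponents `a`. -/
noncomputable def mon (y : Ω → L) (a : Ω → ℤ) : L := ∏ ω, y ω ^ a ω

theorem mon_zero (y : Ω → L) : mon y 0 = 1 := by simp [mon]

theorem mon_add {y : Ω → L} (hy : ∀ ω, y ω ≠ 0) (a b : Ω → ℤ) :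
    mon y (a + b) = mon y a * mon y b := by
  simp only [mon, Pi.add_apply, ← Finset.prod_mul_distrib]
  exact Finset.prod_congr rfl fun ω _ => zpow_add₀ (hy ω) _ _

theorem mon_ne_zero {y : Ω → L} (hy : ∀ ω, y ω ≠ 0) (a : Ω → ℤ) : mon y a ≠ 0 :=
  Finset.prod_ne_zero_iff.2 fun ω _ => zpow_ne_zero _ (hy ω)

theorem mon_nsmul {y : Ω → L} (a : Ω → ℤ) (n : ℕ) : mon y (n • a) = mon y a ^ n := by
  simp only [mon, ← Finset.prod_pow]
  refine Finset.prod_congr rfl fun ω _ => ?_
  simp only [Pi.smul_apply, nsmul_eq_mul]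
  rw [mul_comm, zpow_mul, zpow_natCast]

theorem mon_single [DecidableEq Ω] (y : Ω → L) (ω : Ω) : mon y (Pi.single ω 1) = y ω := by
  rw [mon, Finset.prod_eq_single ω]
  · simp
  · intro b _ hb
    simp [Pi.single_eq_of_ne hb]
  · simp

theorem map_mon {L' : Type*} [Field L'] (φ : L →+* L') (y : Ω → L) (a : Ω → ℤ) :
    φ (mon y a) = mon (fun ω => φ (y ω)) a := by
  simp [mon, map_prod, map_zpow₀]

theorem mon_toNat {y : Ω → L} (a : Ω → ℤ) (ha : ∀ ω, 0 ≤ a ω) :
    mon y a = MvPolynomial.aeval y (MvPolynomial.monomial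
      (Finsupp.equivFunOnFinite.symm fun ω => (a ω).toNat) (1 : M)) := by
  rw [MvPolynomial.aeval_monomial, map_one, one_mul, Finsupp.prod_fintype _ _ (by simp)]
  refine Finset.prod_congr rfl fun ω _ => ?_
  simp only [Finsupp.equivFunOnFinite_symm_apply_apply]
  conv_lhs => rw [← Int.toNat_of_nonneg (ha ω)]
  rw [zpow_natCast]

theorem linearIndependent_mon {y : Ω → L} (hy : AlgebraicIndependent M y) :
    LinearIndependent M (mon y) := by
  classical
  have hy0 : ∀ ω, y ω ≠ 0 := fun ω => hy.ne_zero ω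
  rw [linearIndependent_iff']
  intro s g hg a0 ha0
  -- a bound of the exponents
  obtain ⟨N, hN⟩ : ∃ N : ℕ, ∀ a ∈ s, ∀ ω, -(N : ℤ) ≤ a ω := by
    refine ⟨∑ a ∈ s, ∑ ω, (a ω).natAbs, fun a ha ω => ?_⟩
    have h1 : (a ω).natAbs ≤ ∑ a ∈ s, ∑ ω, (a ω).natAbs :=
      (Finset.single_le_sum (f := fun ω => (a ω).natAbs) (fun _ _ => Nat.zero_le _)
        (Finset.mem_univ ω)).trans
        (Finset.single_le_sum (f := fun a : Ω → ℤ => ∑ ω, (a ω).natAbs)
          (fun _ _ => Nat.zero_le _) ha)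
    omega
  let e : (Ω → ℤ) → (Ω →₀ ℕ) := fun a =>
    Finsupp.equivFunOnFinite.symm fun ω => (a ω + N).toNat
  have he : ∀ a ∈ s, ∀ b ∈ s, e a = e b → a = b := by
    intro a ha b hb h
    funext ω
    have h1 := DFunLike.congr_fun h ω
    simp only [e, Finsupp.equivFunOnFinite_symm_apply_apply] at h1
    have := hN a ha ω
    have := hN b hb ω
    omega
  have h1 : MvPolynomial.aeval y (∑ a ∈ s, MvPolynomial.monomial (e a) (g a)) = 0 := by
    have h2 : ∀ a ∈ s, MvPolynomial.aeval y (MvPolynomial.monomial (e a) (g a))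
        = (g a • mon y a) * mon y (fun _ => (N : ℤ)) := by
      intro a ha
      have h3 : MvPolynomial.monomial (e a) (g a) = g a • MvPolynomial.monomial (e a) (1 : M) := by
        rw [MvPolynomial.smul_monomial, smul_eq_mul, mul_one]
      rw [h3, map_smul, smul_mul_assoc, ← mon_add hy0]
      congr 1
      rw [mon_toNat (M := M) (a + fun _ => (N : ℤ))
        (fun ω => by have := hN a ha ω; simp only [Pi.add_apply]; omega)]
      rfl
    rw [map_sum, Finset.sum_congr rfl h2, ← Finset.sum_mul, hg, zero_mul]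
  have h2 := (injective_iff_map_eq_zero _).1 hy _ h1
  have h3 := congrArg (MvPolynomial.coeff (e a0)) h2
  rw [MvPolynomial.coeff_sum, Finset.sum_eq_single a0] at h3
  · simpa using h3
  · intro b hb hba
    rw [MvPolynomial.coeff_monomial, if_neg]
    intro h
    exact hba (he b hb a0 ha0 h)
  · intro h
    exact absurd ha0 h

end Pool.Agent.Helper49.NP
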