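import Pool.Agent.Helper49.NP.Avg
import Pool.Agent.Helper49.NP.Mon

/-!
The field of rational functions `A(x_s : s ∈ S)`, the action of a group `G` which acts on `S`, the
field of invariants, and the action of the automorphisms of the field of constants.
-/

set_option autoImplicit false

namespace Pool.Agent.Helper49.NP

open MvPolynomial

/-- The field of rational functions over `A` in the variables `x s`, `s ∈ S`. -/
abbrev RatFun (A S : Type) [Field A] : Type := FractionRing (MvPolynomial S A)

/-- The variable `x s`. -/
noncomputable def var (A : Type) {S : Type} [Field A] (s : S) : RatFun A S :=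
  algebraMap (MvPolynomial S A) (RatFun A S) (X s)

/-- The automorphism of the field of rational functions which maps the variable `x s` to
`x (g • s)`, and is the identity on the constants. -/
noncomputable def permute (A : Type) {G S : Type} [Field A] [Group G] [MulAction G S] (g : G) :
    RatFun A S ≃+* RatFun A S :=
  IsFractionRing.ringEquivOfRingEquiv
    (renameEquiv A (MulAction.toPerm g : Equiv.Perm S)).toRingEquiv

section
variable {A S : Type} [Field A]

theorem ringHom_ext {L' : Type*} [Field L'] {φ ψ : RatFun A S →+* L'}
    (h1 : ∀ c : A, φ (algebraMap A _ c) = ψ (algebraMap A _ c))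
    (h2 : ∀ s : S, φ (var A s) = ψ (var A s)) : φ = ψ := by
  apply IsLocalization.ringHom_ext (nonZeroDivisors (MvPolynomial S A))
  apply MvPolynomial.ringHom_ext
  · intro c
    have := h1 c
    rw [IsScalarTower.algebraMap_apply A (MvPolynomial S A) (RatFun A S)] at this
    exact this
  · exact h2

theorem subfield_top (K : Subfield (RatFun A S)) (h1 : ∀ c : A, algebraMap A _ c ∈ K)
    (h2 : ∀ s : S, var A s ∈ K) : K = ⊤ := by
  rw [eq_top_iff]
  intro y _
  have h3 : ∀ f : MvPolynomial S A, algebraMap (MvPolynomial S A) (RatFun A S) f ∈ K := by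
    intro f
    induction f using MvPolynomial.induction_on with
    | C c =>
      have := h1 c
      rw [IsScalarTower.algebraMap_apply A (MvPolynomial S A) (RatFun A S)] at this
      exact this
    | add p q hp hq => rw [map_add]; exact K.add_mem hp hq
    | mul_X p s hp => rw [map_mul]; exact K.mul_mem hp (h2 s)
  obtain ⟨a, b, -, rfl⟩ := IsFractionRing.div_surjective (MvPolynomial S A) y
  exact K.div_mem (h3 a) (h3 b)

variable {G : Type} [Group G] [MulAction G S]

theorem permute_var (g : G) (s : S) : permute A g (var A s) = var A (g • s) := by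
  rw [permute, var, IsFractionRing.ringEquivOfRingEquiv_algebraMap]
  simp [var]

theorem permute_const (g : G) (c : A) :
    permute A g (algebraMap A (RatFun A S) c) = algebraMap A (RatFun A S) c := by
  rw [IsScalarTower.algebraMap_apply A (MvPolynomial S A) (RatFun A S), permute,
    IsFractionRing.ringEquivOfRingEquiv_algebraMap]
  congr 1
  exact (renameEquiv A (MulAction.toPerm g : Equiv.Perm S)).commutes c

end

/-- The field of invariants of `G` in the field of rational functions. -/
noncomputable def invariants (A G S : Type) [Field A] [Group G] [MulAction G S] :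
    IntermediateField A (RatFun A S) where
  carrier := {f | ∀ g : G, permute A g f = f}
  mul_mem' {a b} ha hb g := by rw [map_mul, ha g, hb g]
  add_mem' {a b} ha hb g := by rw [map_add, ha g, hb g]
  inv_mem' a ha g := by rw [map_inv₀, ha g]
  algebraMap_mem' c g := permute_const g c

theorem mem_invariants {A G S : Type} [Field A] [Group G] [MulAction G S] {f : RatFun A S} :
    f ∈ invariants A G S ↔ ∀ g : G, permute A g f = f := Iff.rfl

section
variable {E M : Type} [Field E] [Field M] [Algebra E M] {S : Type}

/-- The action of an automorphism of the field of constants. -/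
noncomputable def gal (S : Type) (σ : M ≃ₐ[E] M) : RatFun M S ≃+* RatFun M S :=
  IsFractionRing.ringEquivOfRingEquiv (MvPolynomial.mapEquiv S σ.toRingEquiv)

theorem gal_var (σ : M ≃ₐ[E] M) (s : S) : gal S σ (var M s) = var M s := by
  rw [gal, var, IsFractionRing.ringEquivOfRingEquiv_algebraMap]
  simp

theorem gal_const (σ : M ≃ₐ[E] M) (c : M) :
    gal S σ (algebraMap M (RatFun M S) c) = algebraMap M (RatFun M S) (σ c) := by
  rw [IsScalarTower.algebraMap_apply M (MvPolynomial S M) (RatFun M S), gal,
    IsFractionRing.ringEquivOfRingEquiv_algebraMap,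
    IsScalarTower.algebraMap_apply M (MvPolynomial S M) (RatFun M S)]
  congr 1
  simp [MvPolynomial.algebraMap_eq]

theorem gal_E (σ : M ≃ₐ[E] M) (c : E) :
    gal S σ (algebraMap E (RatFun M S) c) = algebraMap E (RatFun M S) c := by
  rw [IsScalarTower.algebraMap_apply E M (RatFun M S), gal_const, σ.commutes]

theorem gal_one (f : RatFun M S) : gal S (1 : M ≃ₐ[E] M) f = f := by
  have : ((gal S (1 : M ≃ₐ[E] M) : RatFun M S ≃+* RatFun M S) : RatFun M S →+* RatFun M S)
      = RingHom.id _ := by
    apply ringHom_ext
    · intro c
      simpa using gal_const (S := S) (1 : M ≃ₐ[E] M) c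
    · intro s
      simpa using gal_var (S := S) (1 : M ≃ₐ[E] M) s
  exact RingHom.congr_fun this f

theorem gal_mul (σ τ : M ≃ₐ[E] M) (f : RatFun M S) : gal S (σ * τ) f = gal S σ (gal S τ f) := by
  have : ((gal S (σ * τ) : RatFun M S ≃+* RatFun M S) : RatFun M S →+* RatFun M S)
      = (gal S σ : RatFun M S →+* RatFun M S).comp (gal S τ : RatFun M S →+* RatFun M S) := by
    apply ringHom_ext
    · intro c
      simp [gal_const]
    · intro s
      simp [gal_var]
  exact RingHom.congr_fun this f

theorem gal_permute {G : Type} [Group G] [MulAction G S] (σ : M ≃ₐ[E] M) (g : G)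
    (f : RatFun M S) : gal S σ (permute M g f) = permute M g (gal S σ f) := by
  have : ((gal S σ : RatFun M S ≃+* RatFun M S) : RatFun M S →+* RatFun M S).comp
        ((permute M g : RatFun M S ≃+* RatFun M S) : RatFun M S →+* RatFun M S)
      = ((permute M g : RatFun M S ≃+* RatFun M S) : RatFun M S →+* RatFun M S).comp (gal S σ : RatFun M S →+* RatFun M S) := by
    apply ringHom_ext
    · intro c
      simp [gal_const, permute_const]
    · intro s
      simp [gal_var, permute_var]
  exact RingHom.congr_fun this f

variable (E M S) in
/-- The extension of constants. -/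
noncomputable def bc : RatFun E S →+* RatFun M S :=
  IsFractionRing.map (A := MvPolynomial S E) (B := MvPolynomial S M)
    (MvPolynomial.map_injective (σ := S) (algebraMap E M) (algebraMap E M).injective)

theorem bc_var (s : S) : bc E M S (var E s) = var M s := by
  rw [bc, var, IsFractionRing.map, IsLocalization.map_eq]
  simp [var]

theorem bc_const (c : E) : bc E M S (algebraMap E _ c) = algebraMap E (RatFun M S) c := by
  rw [IsScalarTower.algebraMap_apply E (MvPolynomial S E) (RatFun E S), bc, IsFractionRing.map,
    IsLocalization.map_eq, IsScalarTower.algebraMap_apply E M (RatFun M S),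
    IsScalarTower.algebraMap_apply M (MvPolynomial S M) (RatFun M S)]
  congr 1
  simp [MvPolynomial.algebraMap_eq]

theorem bc_permute {G : Type} [Group G] [MulAction G S] (g : G) (f : RatFun E S) :
    bc E M S (permute E g f) = permute M g (bc E M S f) := by
  have : (bc E M S).comp ((permute E g : RatFun E S ≃+* RatFun E S) : RatFun E S →+* RatFun E S)
      = ((permute M g : RatFun M S ≃+* RatFun M S) : RatFun M S →+* RatFun M S).comp (bc E M S) := by
    apply ringHom_ext
    · intro c
      have h1 := permute_const (A := M) (S := S) g (algebraMap E M c)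
      rw [← IsScalarTower.algebraMap_apply E M (RatFun M S)] at h1
      simp [bc_const, permute_const, h1]
    · intro s
      simp [bc_var, permute_var]
  exact RingHom.congr_fun this f

theorem gal_bc (σ : M ≃ₐ[E] M) (f : RatFun E S) : gal S σ (bc E M S f) = bc E M S f := by
  have : (gal S σ : RatFun M S →+* RatFun M S).comp (bc E M S) = bc E M S := by
    apply ringHom_ext
    · intro c
      simp [bc_const, gal_E]
    · intro s
      simp [bc_var, gal_var]
  exact RingHom.congr_fun this f

/-- The rational functions which are fixed by the automorphisms of the constants are the rational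
functions over the smaller field. -/
theorem mem_range_bc [FiniteDimensional E M] [IsGalois E M] [CharZero E] (f : RatFun M S)
    (hf : ∀ σ : M ≃ₐ[E] M, gal S σ f = f) : f ∈ (bc E M S).fieldRange := by
  classical
  have : CharZero M := charZero_of_injective_algebraMap (algebraMap E M).injective
  have : CharZero (RatFun M S) := charZero_of_injective_algebraMap
    (algebraMap M (RatFun M S)).injective
  let T : Submonoid (RatFun M S) := MonoidHom.mrange (algebraMap M (RatFun M S) : M →* RatFun M S)
  have hT : ∀ t, t ∈ T ↔ ∃ c : M, algebraMap M (RatFun M S) c = t := fun t => Iff.rfl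
  have : Fintype (M ≃ₐ[E] M) := Fintype.ofFinite _
  refine avg (H := M ≃ₐ[E] M) (fun σ => (gal S σ : RatFun M S →+* RatFun M S))
    (bc E M S).fieldRange ?_ (T : Set (RatFun M S)) ?_ ?_ ?_ f hf
  · rintro σ x ⟨z, rfl⟩
    exact gal_bc σ z
  · apply span_top
    · rintro t ht
      obtain ⟨c, rfl⟩ := (hT t).1 ht
      obtain ⟨p, hp0, hp⟩ := (Algebra.IsAlgebraic.isAlgebraic (R := E) c)
      let ι : E →+* (bc E M S).fieldRange :=
        ((bc E M S).rangeRestrictField).comp (algebraMap E (RatFun E S))
      refine ⟨p.map ι, (Polynomial.map_ne_zero_iff ι.injective).2 hp0, ?_⟩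
      rw [Polynomial.aeval_def, Polynomial.eval₂_map]
      have h1 : (algebraMap (bc E M S).fieldRange (RatFun M S)).comp ι
          = (algebraMap M (RatFun M S)).comp (algebraMap E M) := by
        ext c
        change bc E M S (algebraMap E _ c) = _
        rw [bc_const, IsScalarTower.algebraMap_apply E M (RatFun M S)]
        rfl
      rw [h1, ← Polynomial.hom_eval₂, ← Polynomial.aeval_def, hp, map_zero]
    · intro K h1 h2
      apply subfield_top
      · intro c
        exact h2 ⟨c, rfl⟩
      · intro s
        exact h1 ⟨var E s, bc_var s⟩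
  · intro t ht
    obtain ⟨c, rfl⟩ := (hT t).1 ht
    have h1 : ∑ σ : M ≃ₐ[E] M, (gal S σ : RatFun M S →+* RatFun M S)
        (algebraMap M (RatFun M S) c) = algebraMap M (RatFun M S) (∑ σ : M ≃ₐ[E] M, σ c) := by
      rw [map_sum]
      exact Finset.sum_congr rfl fun σ _ => gal_const σ c
    rw [h1]
    have h2 : ∑ σ : M ≃ₐ[E] M, σ c = algebraMap E M (Algebra.trace E M c) := by
      rw [trace_eq_sum_automorphisms]
      exact Finset.sum_congr (Finset.ext fun _ => by simp) fun _ _ => rfl
    rw [h2, ← IsScalarTower.algebraMap_apply E M (RatFun M S)]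
    exact ⟨algebraMap E _ (Algebra.trace E M c), bc_const _⟩
  · exact Nat.cast_ne_zero.2 Fintype.card_ne_zero

end

end Pool.Agent.Helper49.NP
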