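import Pool.Agent.Helper49.NP.Tor

/-!
The inertia groups of cyclotomic extensions of number fields.
-/

set_option autoImplicit false

namespace Pool.Agent.Helper49.NP

open Pool.Agent.Results.MP_4d1008_ag.AlgebraicTori

open scoped NumberField

section
variable {E M : Type} [Field E] [NumberField E] [Field M] [NumberField M] [Algebra E M]

theorem inert_fix (𝔓 : Ideal (𝓞 M)) (h𝔓 : 𝔓.IsMaximal) {σ : M ≃ₐ[E] M}
    (hσ : σ ∈ inertiaGroup E 𝔓) {m : ℕ} (hm : (m : 𝓞 M) ∉ 𝔓) {ζ : M} (hζ : ζ ^ m = 1) :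
    σ ζ = ζ := by
  have hm0 : m ≠ 0 := by
    rintro rfl
    exact hm (by simp)
  have hζ0 : ζ ≠ 0 := by
    rintro rfl
    rw [zero_pow hm0] at hζ
    exact zero_ne_one hζ
  have hint : IsIntegral ℤ ζ := by
    refine IsIntegral.of_pow (Nat.pos_of_ne_zero hm0) ?_
    rw [hζ]
    exact isIntegral_one
  let z : 𝓞 M := ⟨ζ, hint⟩
  have hzc : ((z : 𝓞 M) : M) = ζ := rfl
  obtain ⟨e, he, heq⟩ := hσ z
  rw [hzc] at heq
  have hz : z ^ m = 1 := by
    apply NumberField.RingOfIntegers.coe_injective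
    simp [hzc, hζ]
  obtain ⟨n, rfl⟩ : ∃ n, m = n + 1 := ⟨m - 1, by omega⟩
  set w : 𝓞 M := (z + e) * z ^ n with hw
  have hwc : ((w : 𝓞 M) : M) = σ ζ * ζ ^ n := by
    rw [hw]
    simp [hzc, heq]
  have hwm : w ^ (n + 1) = 1 := by
    apply NumberField.RingOfIntegers.coe_injective
    rw [map_one, map_pow]
    change ((w : 𝓞 M) : M) ^ (n + 1) = 1
    rw [hwc, mul_pow, ← map_pow, hζ, map_one, one_mul, ← pow_mul, mul_comm n, pow_mul, hζ,
      one_pow]
  have hw1 : w - 1 ∈ 𝔓 := by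
    have h1 : w - 1 = e * z ^ n := by
      rw [hw, add_mul, ← pow_succ', hz]
      ring
    rw [h1]
    exact 𝔓.mul_mem_right _ he
  by_cases h1 : w = 1
  · have h2 : σ ζ * ζ ^ n = 1 := by
      rw [← hwc, h1]
      simp
    calc σ ζ = (σ ζ * ζ ^ n) * ζ := by
          rw [mul_assoc, ← pow_succ, hζ, mul_one]
      _ = ζ := by rw [h2, one_mul]
  · exfalso
    apply hm
    have h2 : (∑ i ∈ Finset.range (n + 1), w ^ i) * (w - 1) = 0 := by
      rw [geom_sum_mul, hwm, sub_self]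
    have h3 : ∑ i ∈ Finset.range (n + 1), w ^ i = 0 :=
      (mul_eq_zero.1 h2).resolve_right (sub_ne_zero.2 h1)
    have h4 : Ideal.Quotient.mk 𝔓 w = 1 := by
      rw [← map_one (Ideal.Quotient.mk 𝔓), Ideal.Quotient.mk_eq_mk_iff_sub_mem]
      exact hw1
    have h5 := congrArg (Ideal.Quotient.mk 𝔓) h3
    rw [map_sum, map_zero] at h5
    simp only [map_pow, h4, one_pow, Finset.sum_const, Finset.card_range, nsmul_eq_mul,
      mul_one] at h5
    rw [← Ideal.Quotient.eq_zero_iff_mem, map_natCast]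
    exact h5

theorem inert_coe (𝔓 : Ideal (𝓞 M)) :
    ((Pool.Agent.Y223.G.inert E 𝔓 : Subgroup (M ≃ₐ[E] M)) : Set (M ≃ₐ[E] M)) =
      inertiaGroup E 𝔓 := by
  ext g
  constructor
  · intro hg o
    exact ⟨_, hg o, rfl⟩
  · intro hg o
    obtain ⟨e, he, h⟩ := hg o
    have h2 : e = Pool.Agent.Y223.G.TT E M g o - o := by
      apply NumberField.RingOfIntegers.coe_injective
      exact h
    rw [← h2]
    exact he

theorem card_inertia_dvd (n : ℕ) [NeZero n] [IsCyclotomicExtension {n} E M]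
    (𝔓 : Ideal (𝓞 M)) (h𝔓 : 𝔓.IsMaximal) (r : ℕ) (hr : r.Prime) (hr𝔓 : (r : 𝓞 M) ∈ 𝔓) :
    Nat.card (inertiaGroup E 𝔓) ∣
      Module.finrank E (CyclotomicField (r ^ n.factorization r) E) := by
  classical
  have hn : n ≠ 0 := NeZero.ne n
  set q := r ^ n.factorization r with hq
  have hq0 : NeZero q := ⟨pow_ne_zero _ hr.ne_zero⟩
  set m := n / q with hm
  have hqm : q * m = n := Nat.ordProj_mul_ordCompl_eq_self n r
  have hcop : Nat.Coprime r m := Nat.coprime_ordCompl hr hn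
  have hm𝔓 : (m : 𝓞 M) ∉ 𝔓 := by
    intro h
    apply h𝔓.ne_top
    rw [Ideal.eq_top_iff_one]
    have h1 : (1 : 𝓞 M) = ((r : ℤ) * Nat.gcdA r m + (m : ℤ) * Nat.gcdB r m : ℤ) := by
      rw [← Nat.gcd_eq_gcd_ab, hcop.gcd_eq_one]
      simp
    rw [h1]
    push_cast
    exact 𝔓.add_mem (𝔓.mul_mem_right _ hr𝔓) (𝔓.mul_mem_right _ h)
  have hζ : IsPrimitiveRoot (IsCyclotomicExtension.zeta n E M) n :=
    IsCyclotomicExtension.zeta_spec n E M
  set ζ := IsCyclotomicExtension.zeta n E M with hζdef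
  have hζ1 : IsPrimitiveRoot (ζ ^ m) q := hζ.pow (Nat.pos_of_ne_zero hn) (by rw [mul_comm, hqm])
  have hζ2 : (ζ ^ q) ^ m = 1 := by rw [← pow_mul, hqm, hζ.pow_eq_one]
  let M1 : IntermediateField E M := IntermediateField.adjoin E {ζ ^ m}
  have hcyc : IsCyclotomicExtension {q} E M1 :=
    hζ1.intermediateField_adjoin_isCyclotomicExtension E
  have : IsGalois E M1 := IsCyclotomicExtension.isGalois {q} E M1
  have hgal : IsGalois E M := IsCyclotomicExtension.isGalois {n} E M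
  let f : (Pool.Agent.Y223.G.inert E 𝔓 : Subgroup (M ≃ₐ[E] M)) →* (M1 ≃ₐ[E] M1) :=
    (AlgEquiv.restrictNormalHom M1).comp (Subgroup.subtype _)
  have hf : Function.Injective f := by
    rw [injective_iff_map_eq_one]
    rintro ⟨σ, hσ⟩ h1
    have hσ' : σ ∈ inertiaGroup E 𝔓 := by
      rw [← inert_coe]
      exact hσ
    have h2 : σ (ζ ^ m) = ζ ^ m := by
      have h3 := AlgEquiv.restrictNormalHom_apply M1 σ
        ⟨ζ ^ m, IntermediateField.mem_adjoin_simple_self E _⟩
      have h4 : AlgEquiv.restrictNormalHom M1 σ = 1 := h1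
      rw [h4] at h3
      exact h3.symm
    have h3 : σ (ζ ^ q) = ζ ^ q := inert_fix 𝔓 h𝔓 hσ' hm𝔓 hζ2
    have hζ0 : ζ ≠ 0 := hζ.ne_zero hn
    have h4 : (σ ζ / ζ) ^ m = 1 := by
      rw [div_pow, ← map_pow, h2, div_self (pow_ne_zero _ hζ0)]
    have h5 : (σ ζ / ζ) ^ q = 1 := by
      rw [div_pow, ← map_pow, h3, div_self (pow_ne_zero _ hζ0)]
    have h6 : σ ζ / ζ = 1 := by
      have h7 : orderOf (σ ζ / ζ) ∣ Nat.gcd q m :=
        Nat.dvd_gcd (orderOf_dvd_of_pow_eq_one h5) (orderOf_dvd_of_pow_eq_one h4)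
      rw [(Nat.Coprime.pow_left _ hcop : Nat.Coprime q m).gcd_eq_one, Nat.dvd_one,
        orderOf_eq_one_iff] at h7
      exact h7
    have h7 : σ ζ = ζ := by
      rwa [div_eq_one_iff_eq hζ0] at h6
    apply Subtype.ext
    change σ = 1
    have h8 : σ.toAlgHom = (1 : M ≃ₐ[E] M).toAlgHom := by
      apply (hζ.powerBasis E).algHom_ext
      rw [IsPrimitiveRoot.powerBasis_gen]
      exact h7
    exact AlgEquiv.coe_toAlgHom_injective h8
  have h1 : Nat.card (inertiaGroup E 𝔓) = Nat.card (Pool.Agent.Y223.G.inert E 𝔓) :=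
    congrArg (fun S : Set (M ≃ₐ[E] M) => Nat.card S) (inert_coe (E := E) 𝔓).symm
  rw [h1]
  have h2 := Subgroup.card_dvd_of_injective f hf
  rw [IsGalois.card_aut_eq_finrank] at h2
  have h3 : Module.finrank E M1 = Module.finrank E (CyclotomicField q E) :=
    (IsCyclotomicExtension.algEquiv {q} E M1 (CyclotomicField q E)).toLinearEquiv.finrank_eq
  rwa [h3] at h2

end

theorem finrank_dvd_totient (E : Type) [Field E] [CharZero E] (q : ℕ) [NeZero q] :
    Module.finrank E (CyclotomicField q E) ∣ q.totient := by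
  classical
  have : IsGalois E (CyclotomicField q E) := IsCyclotomicExtension.isGalois {q} E _
  have : FiniteDimensional E (CyclotomicField q E) :=
    IsCyclotomicExtension.finiteDimensional {q} E _
  have hζ := IsCyclotomicExtension.zeta_spec q E (CyclotomicField q E)
  have h1 := Subgroup.card_dvd_of_injective _ (hζ.autToPow_injective E)
  rw [IsGalois.card_aut_eq_finrank, Nat.card_eq_fintype_card, ZMod.card_units_eq_totient] at h1
  exact h1

theorem cubefree (E : Type) [Field E] [CharZero E] (n : ℕ) (hn : n ≠ 0)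
    (h : ∀ p : ℕ, p.Prime → ¬ p ^ 3 ∣ n) (p : ℕ) (hp : p.Prime) :
    ¬ p ^ 2 ∣ Module.finrank E (CyclotomicField (p ^ n.factorization p) E) := by
  have : NeZero (p ^ n.factorization p) := ⟨pow_ne_zero _ hp.ne_zero⟩
  intro h1
  have h2 := h1.trans (finrank_dvd_totient E (p ^ n.factorization p))
  have h3 : n.factorization p < 3 := by
    by_contra h4
    push Not at h4
    exact h p hp ((hp.pow_dvd_iff_le_factorization hn).2 h4)
  have hp2 := hp.two_le
  have h5 : (p ^ n.factorization p).totient ≠ 0 :=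
    (Nat.totient_pos.2 (Nat.pos_of_ne_zero (pow_ne_zero _ hp.ne_zero))).ne'
  rcases Nat.eq_zero_or_pos (n.factorization p) with h6 | h6
  · rw [h6, pow_zero, Nat.totient_one] at h2
    have := Nat.le_of_dvd one_pos h2
    nlinarith
  · rw [Nat.totient_prime_pow hp h6] at h2
    have h7 : p ∣ p - 1 := by
      have h8 : p ^ 2 ∣ p * (p - 1) := by
        refine h2.trans (Nat.mul_dvd_mul_right ?_ _)
        calc p ^ (n.factorization p - 1) ∣ p ^ 1 := pow_dvd_pow _ (by omega)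
          _ = p := pow_one p
      rw [pow_two] at h8
      exact Nat.dvd_of_mul_dvd_mul_left hp.pos h8
    have := Nat.le_of_dvd (by omega) h7
    omega

end Pool.Agent.Helper49.NP
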