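import Pool.Agent.Helper49.NP.Chr

/-!
The field of invariants of a finite abelian permutation group, over a field with enough roots of
unity, is generated by the invariant Laurent monomials in the eigenvectors.
-/

set_option autoImplicit false

namespace Pool.Agent.Helper49.NP

open MvPolynomial

variable {M G S : Type} [Field M] [CommGroup G] [Fintype G] [MulAction G S]
  [Fintype (Idx M G S)]

/-- The character of a Laurent monomial. -/
noncomputable def chr (a : Idx M G S → ℤ) : G →* Mˣ where
  toFun g := ∏ ω, (ω.1.2 g) ^ a ω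
  map_one' := by simp
  map_mul' g h := by simp only [map_mul, mul_zpow, Finset.prod_mul_distrib]

omit [Fintype G] in
theorem chr_apply (a : Idx M G S → ℤ) (g : G) : chr a g = ∏ ω, (ω.1.2 g) ^ a ω := rfl

omit [Fintype G] in
theorem chr_add (a b : Idx M G S → ℤ) (g : G) : chr (a + b) g = chr a g * chr b g := by
  simp only [chr_apply, Pi.add_apply, zpow_add, Finset.prod_mul_distrib]

omit [Fintype G] in
theorem chr_zero (g : G) : chr (0 : Idx M G S → ℤ) g = 1 := by simp [chr_apply]

omit [Fintype G] in
theorem chr_zsmul (n : ℤ) (a : Idx M G S → ℤ) (g : G) : chr (n • a) g = chr a g ^ n := by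
  simp only [chr_apply, Pi.smul_apply, smul_eq_mul, ← Finset.prod_zpow]
  refine Finset.prod_congr rfl fun ω _ => ?_
  rw [mul_comm, zpow_mul]

variable (M G S) in
/-- The lattice of the invariant Laurent monomials. -/
noncomputable def Lam : Submodule ℤ (Idx M G S → ℤ) where
  carrier := {a | ∀ g, chr a g = 1}
  add_mem' {a b} ha hb g := by
    rw [chr_add, ha, hb, mul_one]
  zero_mem' g := chr_zero g
  smul_mem' n a ha g := by
    rw [chr_zsmul, ha, one_zpow]

omit [Fintype G] in
theorem mem_Lam {a : Idx M G S → ℤ} : a ∈ Lam M G S ↔ ∀ g, chr a g = 1 := Iff.rfl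

theorem nsmul_mem_Lam (a : Idx M G S → ℤ) : Fintype.card G • a ∈ Lam M G S := by
  intro g
  rw [← natCast_zsmul, chr_zsmul, zpow_natCast, ← map_pow, pow_card_eq_one, map_one]

theorem permute_mon [CharZero M] (h : G) (a : Idx M G S → ℤ) :
    permute M h (mon (yy : Idx M G S → RatFun M S) a)
      = algebraMap M (RatFun M S) (chr a h : Mˣ) * mon yy a := by
  have h1 := map_mon ((permute M h : RatFun M S ≃+* RatFun M S) : RatFun M S →+* RatFun M S)
    (yy : Idx M G S → RatFun M S) a
  have h2 : permute M h (mon (yy : Idx M G S → RatFun M S) a)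
      = mon (fun ω => permute M h (yy ω)) a := h1
  rw [h2]
  have h3 : ∀ ω : Idx M G S, permute M h (yy ω)
      = algebraMap M (RatFun M S) (ω.1.2 h : Mˣ) * yy ω := fun ω => permute_Y h _ _
  simp only [mon, h3, mul_zpow, Finset.prod_mul_distrib]
  congr 1
  rw [chr_apply, Units.coe_prod, map_prod]
  refine Finset.prod_congr rfl fun ω _ => ?_
  rw [← map_zpow₀]
  congr 1
  simp

theorem yy_ne_zero [CharZero M] (ω : Idx M G S) : (yy ω : RatFun M S) ≠ 0 :=
  algInd_yy.ne_zero ω

variable (M G S) in
/-- The field generated by the invariant Laurent monomials. -/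
noncomputable def FLam : IntermediateField M (RatFun M S) :=
  IntermediateField.adjoin M (Set.range fun a : Lam M G S => mon (yy : Idx M G S → RatFun M S) a)

theorem FLam_le [CharZero M] : FLam M G S ≤ invariants M G S := by
  apply IntermediateField.adjoin_le_iff.2
  rintro _ ⟨a, rfl⟩ h
  have ha : chr (a : Idx M G S → ℤ) h = 1 := a.2 h
  change permute M h (mon yy (a : Idx M G S → ℤ)) = mon yy (a : Idx M G S → ℤ)
  rw [permute_mon, ha]
  simp

theorem mon_mem_FLam {a : Idx M G S → ℤ} (ha : a ∈ Lam M G S) : mon yy a ∈ FLam M G S :=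
  IntermediateField.subset_adjoin _ _ ⟨⟨a, ha⟩, rfl⟩

theorem invariants_eq [CharZero M] [HasEnoughRootsOfUnity M (Monoid.exponent G)] :
    invariants M G S = FLam M G S := by
  classical
  have : CharZero (RatFun M S) := charZero_of_injective_algebraMap
    (algebraMap M (RatFun M S)).injective
  have hfin : Finite (G →* Mˣ) :=
    Finite.of_equiv G (CommGroup.monoidHom_mulEquiv_of_hasEnoughRootsOfUnity G M).some.symm.toEquiv
  have : Fintype (G →* Mˣ) := Fintype.ofFinite _
  refine le_antisymm ?_ FLam_le
  intro f hf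
  let T : Submonoid (RatFun M S) :=
    { carrier := Set.range fun a : Idx M G S → ℤ => mon (yy : Idx M G S → RatFun M S) a
      mul_mem' := by
        rintro _ _ ⟨a, rfl⟩ ⟨b, rfl⟩
        exact ⟨a + b, mon_add yy_ne_zero a b⟩
      one_mem' := ⟨0, mon_zero _⟩ }
  have hcard : ((Fintype.card G : ℕ) : RatFun M S) ≠ 0 := Nat.cast_ne_zero.2 Fintype.card_ne_zero
  refine avg (H := G)
    (fun g => ((permute M g : RatFun M S ≃+* RatFun M S) : RatFun M S →+* RatFun M S))
    (FLam M G S).toSubfield ?_ (T : Set (RatFun M S)) ?_ ?_ hcard f hf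
  · intro g x hx
    exact FLam_le hx g
  · apply span_top
    · rintro _ ⟨a, rfl⟩
      have h1 : mon (yy : Idx M G S → RatFun M S) a ^ Fintype.card G ∈ FLam M G S := by
        rw [← mon_nsmul]
        exact mon_mem_FLam (nsmul_mem_Lam a)
      refine ⟨Polynomial.X ^ Fintype.card G - Polynomial.C ⟨_, h1⟩,
        Polynomial.X_pow_sub_C_ne_zero Fintype.card_pos _, ?_⟩
      rw [map_sub, map_pow, Polynomial.aeval_X, Polynomial.aeval_C]
      exact sub_self _
    · intro K h1 h2
      apply subfield_top
      · intro c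
        exact h1 ((FLam M G S).algebraMap_mem c)
      · intro s
        have hc : ∀ c : M, algebraMap M (RatFun M S) c ∈ K :=
          fun c => h1 ((FLam M G S).algebraMap_mem c)
        have h3 : ∀ χ : G →* Mˣ, Y χ s ∈ K := by
          intro χ
          have h4 := Y_smul (tr G s) χ (rep (orb G s))
          rw [tr_smul] at h4
          rw [h4]
          refine K.mul_mem (hc _) ?_
          by_cases h5 : ∀ g : G, g • rep (orb G s) = rep (orb G s) → χ g = 1
          · have h6 : mon (yy : Idx M G S → RatFun M S) (Pi.single ⟨(orb G s, χ), h5⟩ 1)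
                = Y χ (rep (orb G s)) := mon_single _ _
            rw [← h6]
            exact h2 ⟨_, rfl⟩
          · push Not at h5
            obtain ⟨g, hg1, hg2⟩ := h5
            rw [Y_eq_zero hg1 hg2]
            exact K.zero_mem
        have h4 : ∑ χ : G →* Mˣ, Y χ s ∈ K := K.sum_mem fun χ _ => h3 χ
        rw [sum_Y] at h4
        have h5 : ((Fintype.card (G →* Mˣ) : ℕ) : RatFun M S) ≠ 0 :=
          Nat.cast_ne_zero.2 Fintype.card_ne_zero
        have h6 := K.mul_mem (K.inv_mem (natCast_mem K (Fintype.card (G →* Mˣ)))) h4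
        rwa [inv_mul_cancel_left₀ h5] at h6
  · rintro _ ⟨a, rfl⟩
    have h1 : ∑ g : G, ((permute M g : RatFun M S ≃+* RatFun M S) : RatFun M S →+* RatFun M S)
        (mon (yy : Idx M G S → RatFun M S) a)
        = algebraMap M (RatFun M S) (∑ g : G, ((chr a g : Mˣ) : M)) * mon yy a := by
      rw [map_sum, Finset.sum_mul]
      exact Finset.sum_congr rfl fun g _ => permute_mon g a
    change ∑ g : G, ((permute M g : RatFun M S ≃+* RatFun M S) : RatFun M S →+* RatFun M S)
        (mon (yy : Idx M G S → RatFun M S) a) ∈ _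
    rw [h1]
    by_cases ha : a ∈ Lam M G S
    · exact (FLam M G S).mul_mem ((FLam M G S).algebraMap_mem _) (mon_mem_FLam ha)
    · have h2 : ∑ g : G, ((chr a g : Mˣ) : M) = 0 := by
        have h3 := sum_grp (M := M) (G := G) (χ := 1) (ψ := chr a) 
          (fun h => ha fun g => (DFunLike.congr_fun h g).symm)
        simpa using h3
      rw [h2, map_zero, zero_mul]
      exact (FLam M G S).zero_mem

end Pool.Agent.Helper49.NP
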