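import Pool.Agent.Helper49.NP.Inv
import Pool.Graph.R_pool_sql_team_seeded_5cf16337.Results.MP_4d1008_ag.AlgebraicTori

/-!
The field of invariants of a finite abelian permutation group is the function field of a torus.
-/

set_option autoImplicit false

namespace Pool.Agent.Helper49.NP

open MvPolynomial Pool.Agent.Results.MP_4d1008_ag.AlgebraicTori

section
variable {E M G S : Type} [Field E] [Field M] [Algebra E M] [CommGroup G] [MulAction G S]

/-- The action of the automorphisms on the characters. -/
noncomputable def conj (σ : M ≃ₐ[E] M) (χ : G →* Mˣ) : G →* Mˣ := (Units.map (σ : M →* M)).comp χ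

theorem conj_apply (σ : M ≃ₐ[E] M) (χ : G →* Mˣ) (g : G) :
    ((conj σ χ g : Mˣ) : M) = σ (χ g : Mˣ) := rfl

noncomputable instance actIdx : MulAction (M ≃ₐ[E] M) (Idx M G S) where
  smul σ ω := ⟨(ω.1.1, conj σ ω.1.2), fun g hg => by
    have h1 : ω.1.2 g = 1 := ω.2 g hg
    change Units.map (σ : M →* M) (ω.1.2 g) = 1
    rw [h1, map_one]⟩
  one_smul ω := by
    apply Subtype.ext
    apply Prod.ext
    · rfl
    · ext g
      rfl
  mul_smul σ τ ω := by
    apply Subtype.ext
    apply Prod.ext
    · rfl
    · ext g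
      rfl

theorem smul_fst (σ : M ≃ₐ[E] M) (ω : Idx M G S) : (σ • ω).1.1 = ω.1.1 := rfl

theorem smul_snd (σ : M ≃ₐ[E] M) (ω : Idx M G S) : (σ • ω).1.2 = conj σ ω.1.2 := rfl

variable [Fintype (Idx M G S)]

theorem chr_smul (σ : M ≃ₐ[E] M) (a : Idx M G S → ℤ) (g : G) :
    chr (fun ω => a (σ⁻¹ • ω)) g = Units.map (σ : M →* M) (chr a g) := by
  rw [chr_apply, chr_apply, map_prod]
  refine (Fintype.prod_equiv (MulAction.toPerm σ : Equiv.Perm (Idx M G S)) _ _ fun ω => ?_).symm
  rw [MulAction.toPerm_apply, inv_smul_smul, smul_snd, map_zpow]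
  rfl

noncomputable instance actLam : DistribMulAction (M ≃ₐ[E] M) (Lam M G S) where
  smul σ a := ⟨fun ω => (a : Idx M G S → ℤ) (σ⁻¹ • ω), fun g => by
    rw [chr_smul, a.2 g, map_one]⟩
  one_smul a := by
    apply Subtype.ext
    funext ω
    change (a : Idx M G S → ℤ) ((1 : M ≃ₐ[E] M)⁻¹ • ω) = _
    rw [inv_one, one_smul]
  mul_smul σ τ a := by
    apply Subtype.ext
    funext ω
    change (a : Idx M G S → ℤ) ((σ * τ)⁻¹ • ω) = (a : Idx M G S → ℤ) (τ⁻¹ • σ⁻¹ • ω)
    rw [mul_inv_rev, mul_smul]
  smul_zero σ := by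
    apply Subtype.ext
    rfl
  smul_add σ a b := by
    apply Subtype.ext
    rfl

theorem coe_smul_Lam (σ : M ≃ₐ[E] M) (a : Lam M G S) :
    ((σ • a : Lam M G S) : Idx M G S → ℤ) = fun ω => (a : Idx M G S → ℤ) (σ⁻¹ • ω) := rfl

end

section
variable {E M G S : Type} [Field E] [Field M] [Algebra E M] [CommGroup G] [Fintype G]
  [MulAction G S] [Fintype (Idx M G S)]

theorem gal_mon (σ : M ≃ₐ[E] M) (a : Lam M G S) :
    gal S σ (mon (yy : Idx M G S → RatFun M S) a) = mon yy ((σ • a : Lam M G S) : Idx M G S → ℤ) := by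
  have h1 := map_mon ((gal S σ : RatFun M S ≃+* RatFun M S) : RatFun M S →+* RatFun M S)
    (yy : Idx M G S → RatFun M S) (a : Idx M G S → ℤ)
  have h2 : gal S σ (mon (yy : Idx M G S → RatFun M S) a)
      = mon (fun ω => gal S σ (yy ω)) (a : Idx M G S → ℤ) := h1
  rw [h2, mon, mon]
  refine Fintype.prod_equiv (MulAction.toPerm σ : Equiv.Perm (Idx M G S)) _ _ fun ω => ?_
  rw [MulAction.toPerm_apply, coe_smul_Lam]
  beta_reduce
  rw [inv_smul_smul, yy, gal_Y]
  rfl

/-- The action of the Galois group on the field of invariants. -/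
noncomputable def rho : (M ≃ₐ[E] M) →* (invariants M G S ≃ₐ[E] invariants M G S) where
  toFun σ :=
    { toFun := fun f => ⟨gal S σ f, fun g => by rw [← gal_permute, f.2 g]⟩
      invFun := fun f => ⟨gal S σ⁻¹ f, fun g => by rw [← gal_permute, f.2 g]⟩
      left_inv := fun f => by
        apply Subtype.ext
        change gal S σ⁻¹ (gal S σ f) = f
        rw [← gal_mul, inv_mul_cancel, gal_one]
      right_inv := fun f => by
        apply Subtype.ext
        change gal S σ (gal S σ⁻¹ f) = f
        rw [← gal_mul, mul_inv_cancel, gal_one]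
      map_mul' := fun a b => by
        apply Subtype.ext
        exact map_mul (gal S σ) _ _
      map_add' := fun a b => by
        apply Subtype.ext
        exact map_add (gal S σ) _ _
      commutes' := fun c => by
        apply Subtype.ext
        exact gal_E σ c }
  map_one' := by
    ext f
    exact gal_one _
  map_mul' σ τ := by
    ext f
    exact gal_mul σ τ _

omit [Fintype G] [Fintype (Idx M G S)] in
theorem rho_apply (σ : M ≃ₐ[E] M) (f : invariants M G S) :
    ((rho σ f : invariants M G S) : RatFun M S) = gal S σ f := rfl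

variable (M G S) in
/-- The characters of the torus. -/
noncomputable def xx [CharZero M] (a : Lam M G S) : invariants M G S :=
  ⟨mon yy (a : Idx M G S → ℤ), FLam_le (mon_mem_FLam a.2)⟩

theorem xx_coe [CharZero M] (a : Lam M G S) :
    ((xx M G S a : invariants M G S) : RatFun M S) = mon yy (a : Idx M G S → ℤ) := rfl

theorem xx_zero [CharZero M] : xx M G S 0 = 1 := by
  apply Subtype.ext
  rw [xx_coe]
  exact mon_zero _

theorem xx_add [CharZero M] (a b : Lam M G S) : xx M G S (a + b) = xx M G S a * xx M G S b := by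
  apply Subtype.ext
  rw [IntermediateField.coe_mul, xx_coe, xx_coe, xx_coe]
  exact mon_add yy_ne_zero _ _

theorem xx_li [CharZero M] : LinearIndependent M (xx M G S) := by
  have h1 := (linearIndependent_mon (M := M) (L := RatFun M S)
    (algInd_yy (M := M) (G := G) (S := S))).comp (fun a : Lam M G S => (a : Idx M G S → ℤ))
      Subtype.coe_injective
  have h2 : (⇑((invariants M G S).val.toLinearMap) ∘ xx M G S)
      = (mon (yy : Idx M G S → RatFun M S)) ∘ (fun a : Lam M G S => (a : Idx M G S → ℤ)) := by
    funext a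
    exact xx_coe a
  rw [← h2] at h1
  exact LinearIndependent.of_comp _ h1

theorem xx_gen [CharZero M] [HasEnoughRootsOfUnity M (Monoid.exponent G)] :
    IntermediateField.adjoin M (Set.range (xx M G S)) = ⊤ := by
  rw [eq_top_iff]
  intro f _
  have h1 : (f : RatFun M S) ∈ FLam M G S := by
    rw [← invariants_eq]
    exact f.2
  have h2 : FLam M G S
      = (IntermediateField.adjoin M (Set.range (xx M G S))).map (invariants M G S).val := by
    rw [IntermediateField.adjoin_map, ← Set.range_comp]
    rfl
  rw [h2] at h1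
  obtain ⟨f', hf', h3⟩ := h1
  have h4 : f' = f := Subtype.ext h3
  rw [← h4]
  exact hf'

omit [Fintype G] [Fintype (Idx M G S)] in
theorem rho_const (σ : M ≃ₐ[E] M) (c : M) :
    rho σ (algebraMap M (invariants M G S) c) = algebraMap M (invariants M G S) (σ c) := by
  apply Subtype.ext
  rw [rho_apply]
  exact gal_const σ c

theorem rho_xx [CharZero M] (σ : M ≃ₐ[E] M) (a : Lam M G S) :
    rho σ (xx M G S a) = xx M G S (σ • a) := by
  apply Subtype.ext
  rw [rho_apply, xx_coe, xx_coe]
  exact gal_mon σ a

theorem isTorus [CharZero M] [HasEnoughRootsOfUnity M (Monoid.exponent G)] :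
    IsTorusFunctionField (E := E) (M := M) (Λ := Lam M G S) (K := invariants M G S)
      rho (xx M G S) where
  zero := xx_zero
  add := xx_add
  linearIndependent := xx_li
  generates := xx_gen
  semilinear := rho_const
  equivariant := rho_xx

end

/-- The field of invariants over `E` in the field of invariants over `M`. -/
noncomputable def incl (E M G S : Type) [Field E] [Field M] [Algebra E M] [CommGroup G]
    [MulAction G S] : invariants E G S →+* invariants M G S where
  toFun f := ⟨bc E M S f, fun g => by rw [← bc_permute, f.2 g]⟩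
  map_zero' := Subtype.ext (map_zero _)
  map_one' := Subtype.ext (map_one _)
  map_add' a b := Subtype.ext (map_add _ _ _)
  map_mul' a b := Subtype.ext (map_mul _ _ _)

theorem fixed {E M G S : Type} [Field E] [CharZero E] [Field M] [Algebra E M]
    [FiniteDimensional E M] [IsGalois E M] [CommGroup G] [MulAction G S]
    (y : invariants M G S) :
    (∀ σ : M ≃ₐ[E] M, rho σ y = y) ↔ ∃ f : invariants E G S, incl E M G S f = y := by
  constructor
  · intro h
    obtain ⟨f, hf⟩ := mem_range_bc (E := E) (y : RatFun M S) fun σ => congrArg Subtype.val (h σ)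
    refine ⟨⟨f, fun g => ?_⟩, Subtype.ext hf⟩
    apply (bc E M S).injective
    rw [bc_permute, hf]
    exact y.2 g
  · rintro ⟨f, rfl⟩ σ
    apply Subtype.ext
    exact gal_bc σ _

end Pool.Agent.Helper49.NP
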