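import Pool.Agent.Helper49.NP.Ine

/-!
The theorem on tori, with a homomorphism of fields instead of an algebra.
-/

set_option autoImplicit false

open AlgebraicGeometry CategoryTheory CategoryTheory.Limits MvPolynomial

open scoped NumberField

namespace Pool.Agent.Helper49.NP

open Pool.Agent.Results.MP_4d1008_ag.AlgebraicTori

theorem wrap (E M : Type) [Field E] [NumberField E] [Field M] [NumberField M] [Algebra E M]
    [IsGalois E M]
    (h1 : ∀ 𝔓 : Ideal (𝓞 M), 𝔓.IsMaximal → ¬ ResCharPowDvd E 𝔓 2)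
    (Λ : Type) [AddCommGroup Λ] [Module.Free ℤ Λ] [Module.Finite ℤ Λ]
    [DistribMulAction (M ≃ₐ[E] M) Λ]
    (F K : Type) [Field F] [Field K] [Algebra E F] [Algebra M K] [Algebra E K]
    [IsScalarTower E M K] (ι : F →+* K)
    (hι : ∀ c : E, ι (algebraMap E F c) = algebraMap E K c)
    (ρ : (M ≃ₐ[E] M) →* (K ≃ₐ[E] K)) (x : Λ → K) (hx : IsTorusFunctionField ρ x)
    (hfix : ∀ y, (∀ g, ρ g y = y) ↔ ∃ f : F, ι f = y)
    (Y : Scheme.{0}) (hY : IsIntegral Y) (s : Y ⟶ Spec (CommRingCat.of ℤ))
    (hs1 : LocallyOfFiniteType s) (hs2 : QuasiCompact s)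
    (hiso : Nonempty (Y.functionField ≃+* F)) :
    ∃ (X' : Scheme.{0}) (_ : IsIntegral X') (g : X' ⟶ Spec (CommRingCat.of ℤ)),
      IsProper g ∧
      (∀ x : X',
        (((Module.finrank (IsLocalRing.ResidueField (X'.presheaf.stalk x))
            (IsLocalRing.CotangentSpace (X'.presheaf.stalk x)) : ℕ∞)) : WithBot ℕ∞)
          = ringKrullDim (X'.presheaf.stalk x)) ∧
      Nonempty (X'.functionField ≃+* Y.functionField) := by
  letI : Algebra F K := ι.toAlgebra
  have : IsScalarTower E F K := IsScalarTower.of_algebraMap_eq fun c => (hι c).symm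
  exact Pool.Agent.Results.MP_4d1008_ag.AlgebraicTori.result E M h1 Λ F K ρ x hx hfix Y hY s
    hs1 hs2 hiso

theorem incl_const {E M G S : Type} [Field E] [Field M] [Algebra E M] [CommGroup G]
    [MulAction G S] (c : E) :
    incl E M G S (algebraMap E (invariants E G S) c) = algebraMap E (invariants M G S) c := by
  apply Subtype.ext
  exact bc_const c

theorem noether (E M : Type) [Field E] [NumberField E] [Field M] [NumberField M] [Algebra E M]
    [IsGalois E M]
    (h1 : ∀ 𝔓 : Ideal (𝓞 M), 𝔓.IsMaximal → ¬ ResCharPowDvd E 𝔓 2)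
    (G S : Type) [CommGroup G] [Finite G] [HasEnoughRootsOfUnity M (Monoid.exponent G)]
    [Finite S] [MulAction G S]
    (Y : Scheme.{0}) (hY : IsIntegral Y) (s : Y ⟶ Spec (CommRingCat.of ℤ))
    (hs1 : LocallyOfFiniteType s) (hs2 : QuasiCompact s)
    (hiso : Nonempty (Y.functionField ≃+* invariants E G S)) :
    ∃ (X' : Scheme.{0}) (_ : IsIntegral X') (g : X' ⟶ Spec (CommRingCat.of ℤ)),
      IsProper g ∧
      (∀ x : X',
        (((Module.finrank (IsLocalRing.ResidueField (X'.presheaf.stalk x))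
            (IsLocalRing.CotangentSpace (X'.presheaf.stalk x)) : ℕ∞)) : WithBot ℕ∞)
          = ringKrullDim (X'.presheaf.stalk x)) ∧
      Nonempty (X'.functionField ≃+* Y.functionField) := by
  classical
  have : Fintype G := Fintype.ofFinite G
  have hfin : Finite (G →* Mˣ) := Finite.of_equiv G
    (CommGroup.monoidHom_mulEquiv_of_hasEnoughRootsOfUnity G M).some.symm.toEquiv
  have : Finite (Idx M G S) := inferInstance
  have : Fintype (Idx M G S) := Fintype.ofFinite _
  have : FiniteDimensional E M := inferInstance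
  exact wrap E M h1 (Lam M G S) (invariants E G S) (invariants M G S) (incl E M G S)
    incl_const rho (xx M G S) isTorus fixed Y hY s hs1 hs2 hiso

end Pool.Agent.Helper49.NP
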